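import Mathlib

namespace Pool.Agent.Results.MP_e7878a_nt.Algo

open Polynomial

/-- the polynomial with coefficient list `l` (constant term first) -/
noncomputable def toPoly : List ℤ → ℤ[X]
  | [] => 0
  | c :: l => C c + X * toPoly l

/-- the length: sum of the absolute values of the coefficients -/
def len (F : ℤ[X]) : ℕ := ∑ i ∈ F.support, (F.coeff i).natAbs

/-- nonmonic irreducible polynomials of degree at least one with all zeros in `|z| ≤ 1` -/
def InC (P : ℤ[X]) : Prop :=
  Irreducible P ∧ 1 ≤ P.natDegree ∧ P.leadingCoeff ≠ 1 ∧ P.leadingCoeff ≠ -1 ∧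
    ∀ z : ℂ, aeval z P = 0 → ‖z‖ ≤ 1

/-- `F` is a minimum-length multiple of `P` -/
def IsMinMult (P F : ℤ[X]) : Prop :=
  F ≠ 0 ∧ P ∣ F ∧ ∀ G, G ≠ 0 → P ∣ G → len F ≤ len G

def gd (l : List ℤ) (i : ℕ) : ℤ := l.getD i 0
def ll (l : List ℤ) : ℕ := l.foldr (fun c s => c.natAbs + s) 0
def conv (t p : List ℤ) (i : ℕ) : ℤ :=
  (List.range (i + 1)).foldr (fun j s => gd t j * gd p (i - j) + s) 0

lemma coeff_toPoly (l : List ℤ) (i : ℕ) : (toPoly l).coeff i = gd l i := by
  induction l generalizing i with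
  | nil => simp [toPoly, gd]
  | cons c l ih => cases i <;> simp [toPoly, gd, coeff_X_mul, coeff_C, ih, -eq_intCast]

lemma gd_big {l : List ℤ} {i : ℕ} (h : l.length ≤ i) : gd l i = 0 := by
  simp [gd, List.getElem?_eq_none h]

lemma len_eq (F : ℤ[X]) (N : ℕ) (h : F.natDegree < N) :
    len F = ∑ i ∈ Finset.range N, (F.coeff i).natAbs :=
  Finset.sum_subset (fun i hi => Finset.mem_range.2 ((le_natDegree_of_mem_supp i hi).trans_lt h))
    fun i _ hi => by simpa using hi

lemma len_cons (c : ℤ) (G : ℤ[X]) : len (C c + X * G) = c.natAbs + len G := by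
  rw [len_eq _ ((C c + X * G).natDegree + G.natDegree + 1 + 1) (by omega), Finset.sum_range_succ',
    len_eq G ((C c + X * G).natDegree + G.natDegree + 1) (by omega)]
  simp [coeff_X_mul, coeff_C, add_comm, -eq_intCast]

lemma len_toPoly (l : List ℤ) : len (toPoly l) = ll l := by
  induction l with
  | nil => simp [toPoly, len, ll]
  | cons c l ih => rw [toPoly, len_cons, ih]; rfl

lemma len_zero {F : ℤ[X]} : len F = 0 ↔ F = 0 := by
  refine ⟨fun h => ?_, fun h => by simp [h, len]⟩
  ext i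
  by_contra hi
  have := Finset.sum_eq_zero_iff.1 h i (mem_support_iff.2 (by simpa using hi))
  simp_all

lemma surj (F : ℤ[X]) : ∃ l, toPoly l = F := by
  have : ∀ n, ∀ F : ℤ[X], (∀ i, n ≤ i → F.coeff i = 0) → ∃ l, toPoly l = F := by
    intro n
    induction n with
    | zero => exact fun F h => ⟨[], by ext i; simp [toPoly, h i]⟩
    | succ n ih =>
      intro F h
      obtain ⟨l, hl⟩ := ih F.divX fun i hi => by rw [coeff_divX]; exact h _ (by omega)
      exact ⟨F.coeff 0 :: l, by rw [toPoly, hl, add_comm, X_mul_divX_add]⟩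
  exact this (F.natDegree + 1) F fun i hi => coeff_eq_zero_of_natDegree_lt hi

lemma conv_eq (t p : List ℤ) (i : ℕ) : conv t p i = (toPoly t * toPoly p).coeff i := by
  rw [coeff_mul, Finset.Nat.sum_antidiagonal_eq_sum_range_succ_mk]
  simp only [coeff_toPoly, conv, Finset.sum_range_succ_comm, Nat.succ_eq_add_one]
  have : ∀ (n : ℕ) (g : ℕ → ℤ), (List.range n).foldr (fun j s => g j + s) 0 =
      ∑ j ∈ Finset.range n, g j := fun n g => by
    rw [← List.foldr_map (f := g) (g := (· + ·)), ← List.sum_eq_foldr]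
    induction n with
    | zero => simp
    | succ n ih => rw [List.range_succ, List.map_append, List.sum_append, ih, Finset.sum_range_succ]; simp
  rw [this, Finset.sum_range_succ_comm]

abbrev St := List ℤ × ℕ
abbrev Inp := List ℤ × ℕ × List ℤ × List ℤ × List St

def K1 (x : Inp) : Prop :=
  0 < x.2.1 ∧ ¬ gd x.1 x.2.1 = 0 ∧ ∀ i < x.1.length, i ≤ x.2.1 ∨ gd x.1 i = 0
def K2 (x : Inp) : Prop :=
  0 < ll x.2.2.1 ∧ ∀ i < x.2.2.1.length + (x.2.2.2.1.length + x.1.length),
    gd x.2.2.1 i = conv x.2.2.2.1 x.1 i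
def K3 (x : Inp) : Prop := ∃ s ∈ x.2.2.2.2, s.2 = 0 ∧ ∀ i < x.2.1, gd s.1 i = 0
def K4 (x : Inp) : Prop := ∀ s ∈ x.2.2.2.2, s.2 = 0 ∨ ∃ i < x.2.1, ¬ gd s.1 i = 0
def cc (y : ℕ × St × Inp) : ℤ := (y.1 : ℤ) + (-1) * (ll y.2.2.2.2.1 : ℤ)
def top (y : ℕ × St × Inp) : ℤ := gd y.2.1.1 (y.2.2.2.1 - 1)
def lc (y : ℕ × St × Inp) : ℤ := gd y.2.2.1 y.2.2.2.1
def K7 (w : ℕ × St × ℕ × St × Inp) : Prop :=
  lc w.2.2 * gd w.2.1.1 w.1 + top w.2.2 * gd w.2.2.2.2.1 w.1 =
    lc w.2.2 * gd (cc w.2.2 :: w.2.2.2.1.1) w.1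
def K6 (z : St × ℕ × St × Inp) : Prop :=
  z.1.2 = z.2.2.1.2 + (cc z.2).natAbs ∧ ∀ i < z.2.2.2.2.1, K7 (i, z)
def K5' (y : ℕ × St × Inp) : Prop :=
  ¬ y.2.1.2 + (cc y).natAbs < ll y.2.2.2.2.1 ∨ ¬ (top y).natAbs % (lc y).natAbs = 0 ∨
    ∃ s' ∈ y.2.2.2.2.2.2, K6 (s', y)
def K5'' (u : St × Inp) : Prop := ∀ j < 2 * ll u.2.2.2.1 + 1, K5' (j, u)
def K5 (x : Inp) : Prop := ∀ s ∈ x.2.2.2.2, K5'' (s, x)
def K (x : Inp) : Prop := K1 x ∧ K2 x ∧ K3 x ∧ K4 x ∧ K5 x

lemma sound {p : List ℤ} {d : ℕ} {f t : List ℤ} {S : List St} (h : K (p, d, f, t, S)) :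
    IsMinMult (toPoly p) (toPoly f) := by
  obtain ⟨⟨d0, a0, hp⟩, ⟨L0, hf⟩, ⟨s0, hs0, hs1, hs2⟩, h4, h5⟩ := h
  simp only at d0 a0 hp L0 hf hs0 hs1 hs2
  have pz : ∀ i, d < i → (toPoly p).coeff i = 0 := fun i hi => by
    rw [coeff_toPoly]
    by_cases h : i < p.length
    · exact (hp i h).resolve_left (by omega)
    · exact gd_big (by omega)
  have pdeg : (toPoly p).natDegree = d :=
    le_antisymm (natDegree_le_iff_coeff_eq_zero.2 pz)
      (le_natDegree_of_ne_zero (by rwa [coeff_toPoly]))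
  have P0 : toPoly p ≠ 0 := fun h => by rw [h] at pdeg; simp at pdeg; omega
  have A : ∀ g : List ℤ, ll g < ll f → ∀ T r : ℤ[X], toPoly g = T * toPoly p + r →
      (∀ i, d ≤ i → r.coeff i = 0) → ∃ s ∈ S, s.2 = ll g ∧ ∀ i < d, gd s.1 i = r.coeff i := by
    intro g
    induction g with
    | nil =>
      intro _ T r e hr
      have hT : T = 0 := by
        by_contra hT
        have h1 : (T * toPoly p).natDegree = T.natDegree + d := by rw [natDegree_mul hT P0, pdeg]
        have h2 : T * toPoly p = -r := by rw [toPoly] at e; linear_combination -e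
        have h3 := mt leadingCoeff_eq_zero.1 (mul_ne_zero hT P0)
        rw [leadingCoeff, h1, h2, coeff_neg, hr _ (by omega)] at h3
        simp at h3
      have : r = 0 := by simpa [hT, toPoly] using e.symm
      exact ⟨s0, hs0, hs1, fun i hi => by simp [this, hs2 i hi]⟩
    | cons c g ih =>
      intro hl T r e hr
      have hl' : c.natAbs + ll g < ll f := hl
      set u := T.coeff 0
      set R := C u * toPoly p + r - C c with hR
      have e1 : X * toPoly g = X * (T.divX * toPoly p) + R := by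
        rw [toPoly, ← X_mul_divX_add T] at e
        rw [hR]; linear_combination e
      have R0 : R.coeff 0 = 0 := by simpa using (congrArg (coeff · 0) e1).symm
      have e2 : toPoly g = T.divX * toPoly p + R.divX := by
        apply mul_left_cancel₀ (X_ne_zero (R := ℤ))
        rw [e1, mul_add]
        congr 1
        conv_lhs => rw [← X_mul_divX_add R, R0]
        simp
      have Rc : ∀ i, R.coeff (i + 1) = u * gd p (i + 1) + r.coeff (i + 1) := fun i => by
        simp [hR, coeff_toPoly, -eq_intCast]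
      obtain ⟨s, hs, k1, k2⟩ := ih (by omega) _ _ e2 fun i hi => by
        rw [coeff_divX, Rc, ← coeff_toPoly, pz _ (by omega), hr _ (by omega)]; simp
      have htop : gd s.1 (d - 1) = u * gd p d := by
        rw [k2 _ (by omega), coeff_divX, Rc, show d - 1 + 1 = d by omega, hr d le_rfl, add_zero]
      have hc : cc ((c + ll f).toNat, s, p, d, f, t, S) = c := by simp only [cc]; omega
      rcases h5 s hs (c + ll f).toNat (by simp only; omega) with h | h | ⟨s', hs', m1, m2⟩
      · rw [hc] at h; simp only at h; omega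
      · simp only [top, lc, htop, Int.natAbs_mul] at h; simp at h
      · rw [hc] at m1
        refine ⟨s', hs', by simp only at m1; rw [m1, k1, add_comm]; rfl, fun i hi => ?_⟩
        have := m2 i hi
        simp only [K7, hc, top, lc, htop] at this
        apply mul_left_cancel₀ a0
        cases i with
        | zero =>
          have h0 : gd (c :: s.1) 0 = c := rfl
          simp [hR, coeff_toPoly] at R0
          rw [h0] at this
          linear_combination this - gd p d * R0
        | succ i =>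
          have h0 : gd (c :: s.1) (i + 1) = gd s.1 i := rfl
          rw [h0, k2 i (by omega), coeff_divX, Rc] at this
          linear_combination this
  refine ⟨fun h => by rw [← len_toPoly, len_zero.2 h] at L0; omega, ?_, fun G G0 ⟨T, hT⟩ => ?_⟩
  · refine Dvd.intro_left (toPoly t) ?_
    ext i
    rw [← conv_eq, coeff_toPoly]
    by_cases hi : i < f.length + (t.length + p.length)
    · exact (hf i hi).symm
    · rw [gd_big (by omega), conv_eq, coeff_mul]
      refine Finset.sum_eq_zero fun x hx => ?_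
      have := Finset.HasAntidiagonal.mem_antidiagonal.1 hx
      rw [coeff_toPoly, coeff_toPoly]
      by_cases h1 : t.length ≤ x.1
      · simp [gd_big h1]
      · simp [gd_big (show p.length ≤ x.2 by omega)]
  · obtain ⟨g, rfl⟩ := surj G
    rw [len_toPoly, len_toPoly]
    by_contra hlt
    obtain ⟨s, hs, k1, k2⟩ := A g (by omega) T 0 (by rw [hT]; ring) (by simp)
    rcases h4 s hs with h | ⟨i, hi, h⟩
    · rw [k1, ← len_toPoly, len_zero] at h; exact G0 h
    · exact h (by simpa using k2 i hi)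

lemma norm_le (F : ℤ[X]) {z : ℂ} (hz : ‖z‖ ≤ 1) : ‖aeval z F‖ ≤ len F := by
  obtain ⟨l, rfl⟩ := surj F
  induction l with
  | nil => simp [toPoly]
  | cons c l ih =>
    rw [toPoly, len_cons]
    simp only [map_add, map_mul, aeval_C, aeval_X]
    refine (norm_add_le _ _).trans ?_
    push_cast
    refine add_le_add (by simp [Nat.cast_natAbs]) ?_
    rw [norm_mul]
    exact (mul_le_of_le_one_left (norm_nonneg _) hz).trans ih

lemma bound {P : ℤ[X]} (h : InC P) (L : ℕ) : ∃ B : ℕ, ∀ F T r : ℤ[X], F = T * P + r → len F ≤ L →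
    (∀ i, P.natDegree ≤ i → r.coeff i = 0) → ∀ i < P.natDegree, |r.coeff i| ≤ B := by
  classical
  obtain ⟨hi, h1, -, -, hz⟩ := h
  have hq : Irreducible (P.map (Int.castRingHom ℚ)) :=
    (IsPrimitive.Int.irreducible_iff_irreducible_map_cast (hi.isPrimitive (by omega))).1 hi
  have hsep : (P.map (Int.castRingHom ℂ)).Separable := by
    have := hq.separable.map (f := algebraMap ℚ ℂ)
    rwa [Polynomial.map_map, RingHom.ext_int (RingHom.comp _ _) (Int.castRingHom ℂ)] at this
  set s := (P.map (Int.castRingHom ℂ)).roots.toFinset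
  have hcard : s.card = P.natDegree := by
    rw [Multiset.toFinset_card_of_nodup (nodup_roots hsep), IsAlgClosed.card_roots_eq_natDegree,
      natDegree_map_eq_of_injective Int.cast_injective]
  obtain ⟨B, hB⟩ := exists_nat_ge (∑ i ∈ Finset.range P.natDegree, ∑ a ∈ s,
    (L : ℝ) * ‖(Lagrange.basis s id a).coeff i‖)
  refine ⟨B, fun F T r e hF hr i hi => ?_⟩
  have hd : (r.map (Int.castRingHom ℂ)).degree < s.card := by
    rw [hcard]
    exact degree_map_le.trans_lt ((degree_lt_iff_coeff_zero _ _).2 hr)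
  have := congrArg (coeff · i) (Lagrange.eq_interpolate (v := id) (Set.injOn_id _) hd)
  simp only [coeff_map, Lagrange.interpolate_apply, finsetSum_coeff, coeff_C_mul, eq_intCast,
    id] at this
  have h2 : ((|r.coeff i| : ℤ) : ℝ) ≤ ∑ a ∈ s, (L : ℝ) * ‖(Lagrange.basis s id a).coeff i‖ := by
    rw [Int.cast_abs, ← Complex.norm_intCast, this]
    refine (norm_sum_le _ _).trans (Finset.sum_le_sum fun a ha => ?_)
    rw [norm_mul]
    refine mul_le_mul_of_nonneg_right ?_ (norm_nonneg _)
    have ha0 : aeval a P = 0 := by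
      have := (mem_roots'.1 (Multiset.mem_toFinset.1 ha)).2
      rwa [IsRoot.def, eval_map, ← algebraMap_int_eq, ← aeval_def] at this
    have : eval a (r.map (Int.castRingHom ℂ)) = aeval a F := by
      rw [e, map_add, map_mul, ha0, eval_map, ← algebraMap_int_eq, ← aeval_def]; simp
    rw [this]
    exact (norm_le F (hz a ha0)).trans (by exact_mod_cast hF)
  have h3 := Finset.single_le_sum (f := fun i => ∑ a ∈ s, (L : ℝ) * ‖(Lagrange.basis s id a).coeff i‖)
    (fun i _ => by positivity) (Finset.mem_range.2 hi)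
  exact_mod_cast h2.trans (h3.trans hB)

lemma gd_ofFn {d : ℕ} (g : ℕ → ℤ) {i : ℕ} (hi : i < d) :
    gd (List.ofFn fun j : Fin d => g j) i = g i := by
  simp [gd, hi]

lemma complete {p : List ℤ} (h : InC (toPoly p)) : ∃ c, K (p, c) := by
  classical
  set P := toPoly p with hP
  have P0 : P ≠ 0 := h.1.ne_zero
  have ex : ∃ n, ∃ T : ℤ[X], T * P ≠ 0 ∧ len (T * P) = n := ⟨_, 1, by simpa using P0, rfl⟩
  obtain ⟨T0, hT0, hl0⟩ := Nat.find_spec ex
  have hmin : ∀ T : ℤ[X], T * P ≠ 0 → Nat.find ex ≤ len (T * P) := fun T hT =>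
    Nat.find_min' ex ⟨T, hT, rfl⟩
  set L := Nat.find ex
  have L0 : 0 < L := by rw [← hl0]; exact Nat.pos_of_ne_zero (mt len_zero.1 hT0)
  obtain ⟨f, hf⟩ := surj (T0 * P)
  obtain ⟨t, ht⟩ := surj T0
  have hfl : ll f = L := by rw [← len_toPoly, hf, hl0]
  obtain ⟨B, hB⟩ := bound h L
  set d := P.natDegree with hd
  have d0 : 0 < d := h.2.1
  have fin : {s : St | s.2 < L ∧ ∃ T r : ℤ[X], len (T * P + r) = s.2 ∧ (∀ i, d ≤ i → r.coeff i = 0) ∧
      s.1 = List.ofFn fun j : Fin d => r.coeff j}.Finite := by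
    refine Set.Finite.subset (Finset.finite_toSet (((Fintype.piFinset fun _ : Fin d =>
      Finset.Icc (-B : ℤ) B) ×ˢ Finset.range L).image fun x => (List.ofFn x.1, x.2))) ?_
    rintro ⟨l, k⟩ ⟨hk, T, r, e, hr, hl⟩
    simp only [Finset.coe_image, Set.mem_image, Finset.mem_coe, Finset.mem_product,
      Fintype.mem_piFinset, Finset.mem_Icc, Finset.mem_range]
    exact ⟨(fun j => r.coeff j, k), ⟨fun j => abs_le.1 (hB _ T r rfl (by simp only at e hk; omega) hr j j.2),
      hk⟩, by simp only at hl; rw [hl]⟩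
  have mem : ∀ s, s ∈ fin.toFinset.toList ↔ s.2 < L ∧ ∃ T r : ℤ[X], len (T * P + r) = s.2 ∧
      (∀ i, d ≤ i → r.coeff i = 0) ∧ s.1 = List.ofFn fun j : Fin d => r.coeff j := by simp
  have ad : gd p d ≠ 0 := by rw [← coeff_toPoly]; exact mt leadingCoeff_eq_zero.1 P0
  refine ⟨(d, f, t, fin.toFinset.toList), ⟨d0, ad, fun i _ => ?_⟩, ⟨L0.trans_eq hfl.symm, fun i _ => ?_⟩,
    ⟨(List.ofFn fun j : Fin d => (0 : ℤ[X]).coeff j, 0), (mem _).2 ⟨L0, 0, 0, by simp [len], by simp, rfl⟩,
      rfl, fun i hi => by rw [gd_ofFn _ hi]; simp⟩, fun s hs => ?_, fun s hs j hj => ?_⟩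
  · by_cases hi : i ≤ d
    · exact .inl hi
    · right; rw [← coeff_toPoly]; exact coeff_eq_zero_of_natDegree_lt (not_le.1 hi)
  · simp only; rw [conv_eq, ← coeff_toPoly, hf, ht]
  · obtain ⟨hk, T, r, e, hr, hl⟩ := (mem s).1 hs
    by_contra hh
    push Not at hh
    have : r = 0 := by
      ext i
      by_cases hi : i < d
      · have := hh.2 i hi
        rwa [hl, gd_ofFn _ hi] at this
      · exact hr i (by omega)
    rw [this, add_zero] at e
    have := hmin T (fun h0 => hh.1 (by rw [← e, len_zero, h0]))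
    omega
  · obtain ⟨hk, T, r, e, hr, hl⟩ := (mem s).1 hs
    by_contra hh
    simp only [K5', not_or, not_not] at hh
    obtain ⟨h1, h2, h3⟩ := hh
    set c := cc (j, s, p, d, f, t, fin.toFinset.toList) with hc
    obtain ⟨u, hu⟩ := Int.natAbs_dvd_natAbs.1 (Nat.dvd_of_mod_eq_zero h2)
    simp only [top, lc] at hu
    have hu' := hu
    rw [hl, gd_ofFn _ (by omega)] at hu'
    refine h3 ⟨(List.ofFn fun j : Fin d => (C c + X * r - C u * P).coeff j, s.2 + c.natAbs),
      (mem _).2 ⟨hfl ▸ h1, X * T + C u, _, ?_, fun i hi => ?_, rfl⟩, rfl, fun i hi => ?_⟩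
    · rw [show (X * T + C u) * P + (C c + X * r - C u * P) = C c + X * (T * P + r) by ring, len_cons, e,
        add_comm]
    · obtain ⟨i, rfl⟩ : ∃ k, i = k + 1 := ⟨i - 1, by omega⟩
      simp only [coeff_sub, coeff_add, coeff_C_succ, coeff_X_mul, coeff_C_mul, zero_add]
      rcases hi.eq_or_lt with h4 | h4
      · rw [show i = d - 1 by omega, hu', show d - 1 + 1 = d by omega, hP, coeff_toPoly]; ring
      · rw [hr i (by omega), coeff_eq_zero_of_natDegree_lt h4]; simp
    · simp only [K7, top, lc, ← hc, hu]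
      replace hi : i < d := hi
      have e1 := gd_ofFn (fun j => (C c + X * r - C u * P).coeff j) hi
      beta_reduce at e1
      rw [e1]
      simp only [coeff_sub, coeff_add, coeff_C_mul, hP, coeff_toPoly]
      cases i with
      | zero => simp [gd]; ring
      | succ i =>
        have h0 : gd (c :: s.1) (i + 1) = gd s.1 i := rfl
        rw [h0, hl, gd_ofFn _ (by omega), coeff_C_succ, coeff_X_mul]; ring

open Primrec

lemma pcast : Primrec (Nat.cast : ℕ → ℤ) := encode_iff.1 (nat_double.of_eq fun _ => rfl)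

lemma psub : Primrec₂ fun a b : ℕ => (a : ℤ) - b := by
  have h : Primrec Int.negSucc := encode_iff.1 (nat_double_succ.of_eq fun _ => rfl)
  refine (Primrec.ite (nat_le.comp snd fst) (pcast.comp (nat_sub.comp fst snd))
    (h.comp (nat_sub.comp (nat_sub.comp snd fst) (const 1)))).of_eq fun a => ?_
  split_ifs <;> simp only <;> omega

lemma ppos : Primrec Int.toNat := by
  refine (Primrec.ite (Primrec.eq.comp (nat_mod.comp Primrec.encode (const 2)) (const 0))
    (nat_div.comp Primrec.encode (const 2)) (const 0)).of_eq fun a => ?_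
  cases a with
  | ofNat n => have : Encodable.encode (Int.ofNat n) = 2 * n := rfl
               rw [this]; simp
  | negSucc n => have : Encodable.encode (Int.negSucc n) = 2 * n + 1 := rfl
                 rw [this, if_neg (by omega)]; rfl

lemma pneg : Primrec fun a : ℤ => (-a).toNat := by
  refine (Primrec.ite (Primrec.eq.comp (nat_mod.comp Primrec.encode (const 2)) (const 0))
    (const 0) (succ.comp (nat_div.comp Primrec.encode (const 2)))).of_eq fun a => ?_
  cases a with
  | ofNat n => have : Encodable.encode (Int.ofNat n) = 2 * n := rfl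
               rw [this]; simp
  | negSucc n => have : Encodable.encode (Int.negSucc n) = 2 * n + 1 := rfl
                 rw [this, if_neg (by omega)]; omega

lemma padd : Primrec₂ fun a b : ℤ => a + b :=
  (psub.comp (nat_add.comp (ppos.comp fst) (ppos.comp snd))
    (nat_add.comp (pneg.comp fst) (pneg.comp snd))).of_eq fun a => by simp only; omega

lemma pmul : Primrec₂ fun a b : ℤ => a * b :=
  (psub.comp (nat_add.comp (nat_mul.comp (ppos.comp fst) (ppos.comp snd))
      (nat_mul.comp (pneg.comp fst) (pneg.comp snd)))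
    (nat_add.comp (nat_mul.comp (ppos.comp fst) (pneg.comp snd))
      (nat_mul.comp (pneg.comp fst) (ppos.comp snd)))).of_eq fun a => by
    push_cast
    conv_rhs => rw [← Int.toNat_sub_toNat_neg a.1, ← Int.toNat_sub_toNat_neg a.2]
    ring

lemma pabs : Primrec Int.natAbs := (nat_add.comp ppos pneg).of_eq fun a => by omega

lemma pgd : Primrec₂ gd := list_getD 0

lemma pll : Primrec ll :=
  list_foldr .id (const 0) (nat_add.comp (pabs.comp (fst.comp snd)) (snd.comp snd)).to₂

lemma pconv : Primrec fun x : List ℤ × List ℤ × ℕ => conv x.1 x.2.1 x.2.2 :=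
  list_foldr (list_range.comp (succ.comp (snd.comp snd))) (const 0)
    (padd.comp (pmul.comp (pgd.comp (fst.comp fst) (fst.comp snd))
      (pgd.comp (fst.comp (snd.comp fst)) (nat_sub.comp (snd.comp (snd.comp fst)) (fst.comp snd))))
      (snd.comp snd)).to₂

variable {α β : Type} [Primcodable α] [Primcodable β]

lemma exL {R : β × α → Prop} {f : α → List β} (hR : PrimrecPred R) (hf : Primrec f) :
    PrimrecPred fun a => ∃ x ∈ f a, R (x, a) :=
  (PrimrecRel.exists_mem_list (R := fun x a => R (x, a)) hR).comp hf .id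

lemma alL {R : β × α → Prop} {f : α → List β} (hR : PrimrecPred R) (hf : Primrec f) :
    PrimrecPred fun a => ∀ x ∈ f a, R (x, a) :=
  (PrimrecRel.forall_mem_list (R := fun x a => R (x, a)) hR).comp hf .id

lemma exl {R : ℕ × α → Prop} {f : α → ℕ} (hR : PrimrecPred R) (hf : Primrec f) :
    PrimrecPred fun a => ∃ x < f a, R (x, a) := (exL hR (list_range.comp hf)).of_eq (by simp)

lemma all {R : ℕ × α → Prop} {f : α → ℕ} (hR : PrimrecPred R) (hf : Primrec f) :
    PrimrecPred fun a => ∀ x < f a, R (x, a) := (alL hR (list_range.comp hf)).of_eq (by simp)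

lemma xd : Primrec fun x : Inp => x.2.1 := fst.comp snd
lemma xf : Primrec fun x : Inp => x.2.2.1 := fst.comp (snd.comp snd)
lemma xt : Primrec fun x : Inp => x.2.2.2.1 := fst.comp (snd.comp (snd.comp snd))
lemma xS : Primrec fun x : Inp => x.2.2.2.2 := snd.comp (snd.comp (snd.comp snd))

lemma p1 : PrimrecPred K1 :=
  (nat_lt.comp (const 0) xd).and ((Primrec.eq.comp (pgd.comp fst xd) (const 0)).not.and
    (all (R := fun y : ℕ × Inp => y.1 ≤ y.2.2.1 ∨ gd y.2.1 y.1 = 0)
      ((nat_le.comp fst (xd.comp snd)).or (Primrec.eq.comp (pgd.comp (fst.comp snd) fst) (const 0)))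
      (list_length.comp fst)))

lemma p2 : PrimrecPred K2 :=
  (nat_lt.comp (const 0) (pll.comp xf)).and
    (all (R := fun y : ℕ × Inp => gd y.2.2.2.1 y.1 = conv y.2.2.2.2.1 y.2.1 y.1)
      (Primrec.eq.comp (pgd.comp (xf.comp snd) fst)
        (pconv.comp ((xt.comp snd).pair ((fst.comp snd).pair fst))))
      (nat_add.comp (list_length.comp xf) (nat_add.comp (list_length.comp xt) (list_length.comp fst))))

lemma pz : PrimrecPred fun w : ℕ × St × Inp => gd w.2.1.1 w.1 = 0 :=
  Primrec.eq.comp (pgd.comp (fst.comp (fst.comp snd)) fst) (const 0)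

lemma p3 : PrimrecPred K3 :=
  exL (R := fun y : St × Inp => y.1.2 = 0 ∧ ∀ i < y.2.2.1, gd y.1.1 i = 0)
    ((Primrec.eq.comp (snd.comp fst) (const 0)).and (all pz (xd.comp snd))) xS

lemma p4 : PrimrecPred K4 :=
  alL (R := fun y : St × Inp => y.1.2 = 0 ∨ ∃ i < y.2.2.1, ¬ gd y.1.1 i = 0)
    ((Primrec.eq.comp (snd.comp fst) (const 0)).or (exl pz.not (xd.comp snd))) xS

lemma pcc : Primrec cc :=
  padd.comp (pcast.comp fst) (pmul.comp (const (-1)) (pcast.comp (pll.comp (xf.comp (snd.comp snd)))))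
lemma ptop : Primrec top :=
  pgd.comp (fst.comp (fst.comp snd)) (nat_sub.comp (xd.comp (snd.comp snd)) (const 1))
lemma plc : Primrec lc := pgd.comp (fst.comp (snd.comp snd)) (xd.comp (snd.comp snd))

lemma p7 : PrimrecPred K7 :=
  Primrec.eq.comp (padd.comp (pmul.comp (plc.comp (snd.comp snd)) (pgd.comp (fst.comp (fst.comp snd)) fst))
    (pmul.comp (ptop.comp (snd.comp snd)) (pgd.comp (fst.comp (snd.comp (snd.comp (snd.comp snd)))) fst)))
    (pmul.comp (plc.comp (snd.comp snd)) (pgd.comp (list_cons.comp (pcc.comp (snd.comp snd))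
      (fst.comp (fst.comp (snd.comp (snd.comp snd))))) fst))

lemma p6 : PrimrecPred K6 :=
  (Primrec.eq.comp (snd.comp fst) (nat_add.comp (snd.comp (fst.comp (snd.comp snd)))
    (pabs.comp (pcc.comp snd)))).and (all p7 (xd.comp (snd.comp (snd.comp snd))))

lemma p5' : PrimrecPred K5' :=
  (nat_lt.comp (nat_add.comp (snd.comp (fst.comp snd)) (pabs.comp pcc))
    (pll.comp (xf.comp (snd.comp snd)))).not.or
    ((Primrec.eq.comp (nat_mod.comp (pabs.comp ptop) (pabs.comp plc)) (const 0)).not.or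
      (exL p6 (xS.comp (snd.comp snd))))

lemma p5'' : PrimrecPred K5'' :=
  all p5' (succ.comp (nat_mul.comp (const 2) (pll.comp (xf.comp snd))))

lemma pK : PrimrecPred K := p1.and (p2.and (p3.and (p4.and (alL p5'' xS))))

theorem result : ∃ A : List ℤ →. List ℤ, Partrec A ∧
    ∀ l : List ℤ, InC (toPoly l) → ∃ m ∈ A l, IsMinMult (toPoly l) (toPoly m) := by
  classical
  let g : List ℤ → ℕ → Option (List ℤ) := fun p n =>
    (Encodable.decode (α := ℕ × List ℤ × List ℤ × List St) n).bind fun c =>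
      if K (p, c) then some c.2.1 else none
  have hg : Primrec₂ g := option_bind (Primrec.decode.comp snd)
    (Primrec.ite (pK.comp ((fst.comp fst).pair snd)) (option_some.comp (fst.comp (snd.comp snd)))
      (const none)).to₂
  refine ⟨fun p => Nat.rfindOpt (g p), Partrec.rfindOpt hg.to_comp, fun l hl => ?_⟩
  obtain ⟨c, hc⟩ := complete hl
  have hd : (Nat.rfindOpt (g l)).Dom :=
    Nat.rfindOpt_dom.2 ⟨Encodable.encode c, c.2.1, by simp only [g, Encodable.encodek, Option.bind_some, if_pos hc]; rfl⟩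
  refine ⟨_, Part.get_mem hd, ?_⟩
  obtain ⟨n, hn⟩ := Nat.rfindOpt_spec (Part.get_mem hd)
  simp only [g, Option.mem_def, Option.bind_eq_some_iff] at hn
  obtain ⟨⟨d, f, t, S⟩, -, h2⟩ := hn
  split_ifs at h2 with h3
  rw [← Option.some.inj h2]
  exact sound h3

end Pool.Agent.Results.MP_e7878a_nt.Algo
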